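import Pool.Agent.Q234.KG.Stm

/-!
# Project KG (helper234), job CT: the contraction
(adapted from `Pool/Agent/Q277/KT/CT.lean` and `Pool/Agent/Q68/KT/C2.lean`)
-/

set_option autoImplicit false

open scoped BigOperators
open Finset
open Pool.Agent.Q234.KT (IsSize)
open Pool.Agent.Q234.KG

namespace Pool.Agent.Q137.KG.CT

section

variable {V : Type} [Fintype V] [DecidableEq V] {J : Type} [Fintype J] {d : ℕ} [NeZero d]

theorem co_sum {ι : Type} (s : Finset ι) (F : ι → (V → Fin d) → ℂ) (m : V → Fin d) :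
    co (fun σ => ∑ i ∈ s, F i σ) m = ∑ i ∈ s, co (F i) m := by
  unfold co
  rw [← mul_sum, sum_comm]
  congr 1
  exact sum_congr rfl fun σ _ => by rw [sum_mul]

theorem co_add (F G : (V → Fin d) → ℂ) (m : V → Fin d) :
    co (fun σ => F σ + G σ) m = co F m + co G m := by
  unfold co
  rw [← mul_add, ← sum_add_distrib]
  congr 1
  exact sum_congr rfl fun σ _ => by rw [add_mul]

theorem co_sub (F G : (V → Fin d) → ℂ) (m : V → Fin d) :
    co (fun σ => F σ - G σ) m = co F m - co G m := by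
  unfold co
  rw [← mul_sub, ← sum_sub_distrib]
  congr 1
  exact sum_congr rfl fun σ _ => by rw [sub_mul]

theorem sum_co {t : Finset V → ℕ} (ht : IsSize t) {r : ℝ} (hr : 1 ≤ r) (B : J → Finset V)
    (P : V → (V → Fin d) → ℂ) (Q : J → (V → Fin d) → ℂ) (x : V) :
    ∑ m ∈ univ.filter (fun m : V → Fin d => m x ≠ 0),
      ‖co (fun σ => ∑ u, P u σ + ∑ j, Q j σ) m‖ * r ^ t (sp m) ≤
      ∑ u, nx r t {u} x (P u) + ∑ j, nx r t (B j) x (Q j) := by
  have hr0 : 0 ≤ r := by linarith
  unfold nx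
  rw [sum_comm (s := (univ : Finset V)), sum_comm (s := (univ : Finset J)), ← sum_add_distrib]
  refine sum_le_sum fun m _ => ?_
  rw [co_add (fun σ => ∑ u, P u σ) (fun σ => ∑ j, Q j σ), co_sum, co_sum]
  calc ‖∑ u, co (P u) m + ∑ j, co (Q j) m‖ * r ^ t (sp m)
      ≤ (∑ u, ‖co (P u) m‖ + ∑ j, ‖co (Q j) m‖) * r ^ t (sp m) := by
        refine mul_le_mul_of_nonneg_right ?_ (by positivity)
        exact (norm_add_le _ _).trans (add_le_add (norm_sum_le _ _) (norm_sum_le _ _))
    _ = ∑ u, ‖co (P u) m‖ * r ^ t (sp m) + ∑ j, ‖co (Q j) m‖ * r ^ t (sp m) := by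
        rw [add_mul, sum_mul, sum_mul]
    _ ≤ _ := by
        refine add_le_add (sum_le_sum fun u _ => ?_) (sum_le_sum fun j _ => ?_)
        · exact mul_le_mul_of_nonneg_left
            (pow_le_pow_right₀ hr (ht.mono _ _ subset_union_right)) (norm_nonneg _)
        · exact mul_le_mul_of_nonneg_left
            (pow_le_pow_right₀ hr (ht.mono _ _ subset_union_right)) (norm_nonneg _)

theorem card_le_Ee {α : Fin d → ℂ} {e : Fin d → ℝ} (h : IsOne α e) (m : V → Fin d) :
    ((sp m).card : ℝ) ≤ Ee e m := by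
  unfold Ee sp
  rw [card_filter]
  push_cast
  refine sum_le_sum fun v _ => ?_
  by_cases hv : m v = 0
  · rw [if_neg (by simpa using hv), hv, h.zero]
  · rw [if_pos hv]
    exact h.one _ hv

/-- the norm of a family `m ↦ -(Ee m)⁻¹ co H m` -/
theorem nb_le {α : Fin d → ℂ} {e : Fin d → ℝ} (h : IsOne α e) {t : Finset V → ℕ} {r : ℝ} (hr : 1 ≤ r)
    (c : (V → Fin d) → ℂ) (H : (V → Fin d) → ℂ) (x : V)
    (hc : ∀ m : V → Fin d, m x ≠ 0 → c m = -((Ee e m : ℝ) : ℂ)⁻¹ * co H m) :
    nb r t x c ≤ ∑ m ∈ univ.filter (fun m : V → Fin d => m x ≠ 0), ‖co H m‖ * r ^ t (sp m) := by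
  unfold nb
  refine sum_le_sum fun m hm => ?_
  rw [mem_filter] at hm
  refine mul_le_mul_of_nonneg_right ?_ (by positivity)
  have h1 := card_le_Ee h m
  have h2 : (0 : ℝ) < (sp m).card := by
    have : 0 < (sp m).card := card_pos.mpr ⟨x, by
      unfold sp
      exact mem_filter.2 ⟨mem_univ _, hm.2⟩⟩
    exact_mod_cast this
  have h3 : 0 < Ee e m := h2.trans_le h1
  rw [hc m hm.2, norm_mul, norm_neg, norm_inv, Complex.norm_real, Real.norm_eq_abs, abs_of_pos h3]
  calc ((sp m).card : ℝ) * ((Ee e m)⁻¹ * ‖co H m‖) = ((sp m).card / Ee e m) * ‖co H m‖ := by ring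
    _ ≤ 1 * ‖co H m‖ := by
        refine mul_le_mul_of_nonneg_right ?_ (norm_nonneg _)
        rw [div_le_one h3]
        exact h1
    _ = ‖co H m‖ := one_mul _

theorem nb_nonneg {t : Finset V → ℕ} {r : ℝ} (hr : 1 ≤ r) (x : V) (g : (V → Fin d) → ℂ) :
    0 ≤ nb r t x g := by
  unfold nb
  exact sum_nonneg fun m _ => by positivity

theorem Gp_zero (c σ : V → Fin d) : Gp (fun _ : V → Fin d => (0 : ℂ)) c σ = 0 := by
  unfold Gp
  simp

end

theorem main (_h1 : FourS) (h2 : UPart) : ContrS := by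
  intro d _ α e V _ _ J _ t c B w r δ κ hα ht hr hδ hδa hκ hJ
  set A : ℝ := ∑ a, ‖α a‖ with hA
  have hA0 : 0 ≤ A := sum_nonneg fun a _ => norm_nonneg _
  have hAδ : A * δ ≤ 1 / 192 := by
    calc A * δ ≤ (A + 1) * δ := mul_le_mul_of_nonneg_right (by linarith) hδ.le
      _ ≤ (A + 1) * (1 / (192 * (A + 1))) := mul_le_mul_of_nonneg_left hδa (by linarith)
      _ = 1 / 192 := by
          have : A + 1 ≠ 0 := by linarith
          field_simp
  have hδb : δ ≤ 1 / 192 := by
    refine hδa.trans ?_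
    rw [div_le_div_iff₀ (by positivity) (by norm_num)]
    nlinarith
  have hz : ∀ x : V, nb r t x (fun _ : V → Fin d => (0 : ℂ)) ≤ δ := by
    intro y
    unfold nb
    rw [sum_eq_zero]
    · exact hδ.le
    · intro X _
      simp
  constructor
  · intro g hg x
    have hgd : ∀ x, nb r t x (fun m => g m - (fun _ : V → Fin d => (0 : ℂ)) m) ≤ δ := by
      intro y
      simpa using hg y
    have u1 := h2 d V t α r δ δ ht hr (by linarith) g (fun _ => 0) hg hz hgd x
    have j1 := (hJ g (fun _ => 0) δ hg hz hgd x).2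
    have e1 := nb_le hα (t := t) hr (Tm α e c w g) (Ph α c w g) x (by
      intro m hm
      unfold Tm
      rw [if_neg]
      rintro rfl
      exact hm rfl)
    have s := sum_co ht hr B (fun u σ => ∑ a, α a *
        (Complex.exp (Gp g (Pi.single u a) σ) - 1 - Gp g (Pi.single u a) σ))
      (fun j σ => w j σ * Complex.exp (Gp g (c j) σ)) x
    have eP : (fun σ => ∑ u, ∑ a, α a *
        (Complex.exp (Gp g (Pi.single u a) σ) - 1 - Gp g (Pi.single u a) σ) +
        ∑ j, w j σ * Complex.exp (Gp g (c j) σ)) = Ph α c w g := rfl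
    rw [eP] at s
    have eU : ∀ u : V, (fun σ => ∑ a, α a *
      ((Complex.exp (Gp g (Pi.single u a) σ) - 1 - Gp g (Pi.single u a) σ) -
      (Complex.exp (Gp (fun _ => 0) (Pi.single u a) σ) - 1 -
        Gp (fun _ => 0) (Pi.single u a) σ))) =
        fun σ => ∑ a, α a *
        (Complex.exp (Gp g (Pi.single u a) σ) - 1 - Gp g (Pi.single u a) σ) := by
      intro u
      funext σ
      refine sum_congr rfl fun a _ => ?_
      rw [Gp_zero]
      simp
    simp_rw [eU] at u1
    have : 48 * A * δ * δ ≤ δ / 4 := by nlinarith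
    linarith
  · intro g g' η hg hg' hd x
    have hη0 : 0 ≤ η := (nb_nonneg hr x _).trans (hd x)
    have u1 := h2 d V t α r δ η ht hr (by linarith) g g' hg hg' hd x
    have j1 := (hJ g g' η hg hg' hd x).1
    have e1 := nb_le hα (t := t) hr (fun m => Tm α e c w g m - Tm α e c w g' m)
      (fun σ => Ph α c w g σ - Ph α c w g' σ) x (by
      intro m hm
      unfold Tm
      have hne : m ≠ 0 := by
        rintro rfl
        exact hm rfl
      rw [if_neg hne, if_neg hne, co_sub]
      ring)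
    have s := sum_co ht hr B (fun u σ => ∑ a, α a *
      ((Complex.exp (Gp g (Pi.single u a) σ) - 1 - Gp g (Pi.single u a) σ) -
      (Complex.exp (Gp g' (Pi.single u a) σ) - 1 - Gp g' (Pi.single u a) σ)))
      (fun j σ => w j σ * (Complex.exp (Gp g (c j) σ) - Complex.exp (Gp g' (c j) σ))) x
    have eP : (fun σ => ∑ u, ∑ a, α a *
      ((Complex.exp (Gp g (Pi.single u a) σ) - 1 - Gp g (Pi.single u a) σ) -
      (Complex.exp (Gp g' (Pi.single u a) σ) - 1 - Gp g' (Pi.single u a) σ)) +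
        ∑ j, w j σ * (Complex.exp (Gp g (c j) σ) - Complex.exp (Gp g' (c j) σ))) =
        fun σ => Ph α c w g σ - Ph α c w g' σ := by
      funext σ
      unfold Ph
      simp_rw [mul_sub]
      simp only [sum_sub_distrib]
      ring
    rw [eP] at s
    have f1 : 48 * A * δ * η ≤ η / 4 := by nlinarith
    have f2 : κ * η ≤ 1 / 4 * η := mul_le_mul_of_nonneg_right (by linarith) hη0
    linarith

end Pool.Agent.Q137.KG.CT
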